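import Pool.Agent.Helper97.TI.Defs

set_option autoImplicit false
open MvPolynomial

namespace TI

section FIN

variable {K : Type} [Field K] [Algebra ℂ K]

/-- EIG: eigenvector -/
theorem exists_eig (U : Submodule ℂ K) (hU : FiniteDimensional ℂ U) (hne : U ≠ ⊥) (φ : K →ₐ[ℂ] K)
    (hφ : ∀ g ∈ U, φ g ∈ U) :
    (∃ g ∈ U, g ≠ 0 ∧ ∃ z : ℂ, z ≠ 0 ∧ φ g = z • g) ∧ ∀ g ∈ U, ∃ g' ∈ U, φ g' = g := by
  classical
  let f : U →ₗ[ℂ] U := φ.toLinearMap.restrict hφ
  have hf : ∀ u : U, ((f u : U) : K) = φ (u : K) := fun u => rfl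
  have hinj : Function.Injective f := by
    intro a b hab
    have h1 : ((f a : U) : K) = ((f b : U) : K) := by rw [hab]
    rw [hf, hf] at h1
    exact Subtype.ext (φ.toRingHom.injective h1)
  have hsurj : Function.Surjective f := LinearMap.surjective_of_injective hinj
  have : Nontrivial U := Submodule.nontrivial_iff_ne_bot.mpr hne
  refine ⟨?_, ?_⟩
  · obtain ⟨z, hz⟩ := Module.End.exists_eigenvalue f
    obtain ⟨u, hu⟩ := hz.exists_hasEigenvector
    have hu0 : u ≠ 0 := hu.2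
    have hfu : f u = z • u := hu.apply_eq_smul
    have huK : (u : K) ≠ 0 := fun h => hu0 (Subtype.ext h)
    refine ⟨u, u.2, huK, z, ?_, ?_⟩
    · intro hz0
      rw [hz0, zero_smul] at hfu
      have : f u = f 0 := by rw [hfu, map_zero]
      exact hu0 (hinj this)
    · have := congrArg (fun t : U => (t : K)) hfu
      simpa [hf] using this
  · intro g hg
    obtain ⟨u, hu⟩ := hsurj ⟨g, hg⟩
    refine ⟨u, u.2, ?_⟩
    have := congrArg (fun t : U => (t : K)) hu
    simpa [hf] using this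

/-- CH: stabilizer of a finite-dimensional space is `ℂ` -/
theorem const_of_stab (V : Submodule ℂ K) (hV : FiniteDimensional ℂ V) (hne : V ≠ ⊥) (h : K)
    (hh : ∀ v ∈ V, h * v ∈ V) : ∃ z : ℂ, h = algebraMap ℂ K z := by
  classical
  let f : V →ₗ[ℂ] V := (LinearMap.mulLeft ℂ h).restrict hh
  have hf : ∀ u : V, ((f u : V) : K) = h * (u : K) := fun u => rfl
  have : Nontrivial V := Submodule.nontrivial_iff_ne_bot.mpr hne
  obtain ⟨z, hz⟩ := Module.End.exists_eigenvalue f
  obtain ⟨u, hu⟩ := hz.exists_hasEigenvector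
  have hu0 : u ≠ 0 := hu.2
  have hfu : f u = z • u := hu.apply_eq_smul
  have huK : (u : K) ≠ 0 := fun h => hu0 (Subtype.ext h)
  have h1 := congrArg (fun t : V => (t : K)) hfu
  simp only [hf, Submodule.coe_smul, Algebra.smul_def] at h1
  exact ⟨z, mul_right_cancel₀ huK h1⟩

end FIN

end TI
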