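import Pool.Agent.Helper97.TI.Defs

set_option autoImplicit false
open MvPolynomial

namespace TI

section P4
variable {κ d n : ℕ} {K : Type} [Field K] [Algebra ℂ K] [Algebra (RR κ) K]
  [IsScalarTower ℂ (RR κ) K]

theorem LIN_coeff (y : RR κ) (hy : y.IsHomogeneous 1) :
    ∃ b : Fin κ → ℂ, ∀ v : Fin κ → ℂ, eval v y = ∑ k, b k * v k := by
  have h : y ∈ MvPolynomial.homogeneousSubmodule (Fin κ) ℂ 1 := hy
  rw [MvPolynomial.homogeneousSubmodule_one_eq_span_X,
    Submodule.mem_span_range_iff_exists_fun] at h
  obtain ⟨b, hb⟩ := h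
  refine ⟨b, fun v => ?_⟩
  rw [← hb, map_sum]
  refine Finset.sum_congr rfl fun k _ => ?_
  rw [MvPolynomial.smul_eval, eval_X]

/-- LIN -/
theorem exists_subspace (y : Fin n → RR κ) (hy : ∀ j, (y j).IsHomogeneous 1)
    (hind : AlgebraicIndependent ℂ (im K y))
    (hspan : ∀ i, ∃ a : Fin n → ℂ, algebraMap (RR κ) K (X i) = ∑ j, a j • im K y j) :
    ∃ W : Submodule ℂ (Fin κ → ℂ), ∀ v : Fin κ → ℂ,
      (∀ p ∈ RingHom.ker (algebraMap (RR κ) K), eval v p = 0) ↔ v ∈ W := by
  classical
  choose b hb using fun j => LIN_coeff (y j) (hy j)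
  choose a ha using hspan
  refine ⟨{ carrier := {v | ∀ i, v i = ∑ j, a i j * ∑ k, b j k * v k}
            add_mem' := ?_
            zero_mem' := ?_
            smul_mem' := ?_ }, fun v => ?_⟩
  · intro u v hu hv i
    simp only [Set.mem_ofPred_eq] at hu hv
    rw [Pi.add_apply, hu i, hv i, ← Finset.sum_add_distrib]
    refine Finset.sum_congr rfl fun j _ => ?_
    rw [← mul_add, ← Finset.sum_add_distrib]
    congr 1
    refine Finset.sum_congr rfl fun k _ => ?_
    rw [Pi.add_apply, mul_add]
  · intro i
    simp
  · intro c v hv i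
    simp only [Set.mem_ofPred_eq] at hv
    rw [Pi.smul_apply, hv i, smul_eq_mul, Finset.mul_sum]
    refine Finset.sum_congr rfl fun j _ => ?_
    rw [Finset.mul_sum, Finset.mul_sum, Finset.mul_sum]
    refine Finset.sum_congr rfl fun k _ => ?_
    rw [Pi.smul_apply, smul_eq_mul]
    ring
  · constructor
    · intro h
      show ∀ i, v i = ∑ j, a i j * ∑ k, b j k * v k
      intro i
      have hk : (X i - ∑ j, C (a i j) * y j : RR κ) ∈ RingHom.ker (algebraMap (RR κ) K) := by
        rw [RingHom.mem_ker, map_sub, map_sum, ha i, sub_eq_zero]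
        refine Finset.sum_congr rfl fun j _ => ?_
        rw [map_mul, ← MvPolynomial.algebraMap_eq, ← IsScalarTower.algebraMap_apply ℂ (RR κ) K,
          Algebra.smul_def]
        rfl
      have h1 := h _ hk
      rw [map_sub, eval_X, sub_eq_zero, map_sum] at h1
      rw [h1]
      refine Finset.sum_congr rfl fun j _ => ?_
      rw [map_mul, eval_C, hb]
    · intro hv p hp
      change ∀ i, v i = ∑ j, a i j * ∑ k, b j k * v k at hv
      rw [RingHom.mem_ker] at hp
      let P : MvPolynomial (Fin n) ℂ := aeval (fun i => ∑ j, C (a i j) * X j) p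
      have hP : aeval (im K y) P = 0 := by
        have h1 : aeval (im K y) P =
            aeval (fun i => aeval (im K y) (∑ j, C (a i j) * X j : MvPolynomial (Fin n) ℂ)) p := by
          simp only [P]
          rw [← AlgHom.comp_apply, comp_aeval]
        have h2 : (fun i => aeval (im K y) (∑ j, C (a i j) * X j : MvPolynomial (Fin n) ℂ)) =
            fun i => algebraMap (RR κ) K (X i) := by
          funext i
          rw [ha i, map_sum]
          refine Finset.sum_congr rfl fun j _ => ?_
          rw [map_mul, aeval_X, aeval_C, Algebra.smul_def]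
        rw [h1, h2]
        have h3 : (aeval (fun i => algebraMap (RR κ) K (X i)) : RR κ →ₐ[ℂ] K) =
            IsScalarTower.toAlgHom ℂ (RR κ) K := by
          apply MvPolynomial.algHom_ext
          intro i
          simp
        rw [h3]
        simpa using hp
      have hP0 : P = 0 := by
        have := (algebraicIndependent_iff.mp hind) P hP
        exact this
      have h4 : eval v p = eval (fun j => ∑ k, b j k * v k) P := by
        have h5 : eval (fun j => ∑ k, b j k * v k) P =
            eval (fun i => eval (fun j => ∑ k, b j k * v k)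
              (∑ j, C (a i j) * X j : MvPolynomial (Fin n) ℂ)) p := by
          simp only [P]
          rw [← MvPolynomial.coe_aeval_eq_eval, ← MvPolynomial.coe_aeval_eq_eval]
          show aeval (R := ℂ) _ (aeval _ p) = aeval _ p
          rw [← AlgHom.comp_apply, comp_aeval]
          rfl
        rw [h5]
        congr 2
        funext i
        rw [hv i, map_sum]
        refine Finset.sum_congr rfl fun j _ => ?_
        rw [map_mul, eval_C, eval_X]
      rw [h4, hP0, map_zero]

end P4

end TI
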